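import Pool.Agent.MP_c69980_ag.H43.Spec4

/-!
Row St3: the scales and the radius at stage `n`.
-/

set_option autoImplicit false

namespace Pool.Agent.MP_c69980_ag.H43

open H60 Finset Filter Topology Metric Real

lemma St3_seq (b c : ℕ) (hb : 1 < b) : ∃ σ : ℕ → ℝ, (∀ i, σ i ^ b = σ (i + 1)) ∧ Monotone σ ∧
    (∀ i, σ (i + 1) = 2 ^ b ^ (c + i + 1)) ∧ ∀ i, (c : ℝ) ≤ σ i := by
  refine ⟨fun i => 2 ^ b ^ (c + i), fun i => by rw [← pow_mul, ← pow_succ, add_assoc],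
    fun i j h => pow_le_pow_right₀ one_le_two (Nat.pow_le_pow_right (by omega) (by omega)),
    fun i => rfl, fun i => ?_⟩
  have a1 := (Nat.lt_pow_self (n := c + i) hb).le
  have a2 := (Nat.lt_pow_self (n := b ^ (c + i)) (by norm_num : 1 < 2)).le
  change (c : ℝ) ≤ 2 ^ b ^ (c + i)
  exact_mod_cast (by omega : c ≤ 2 ^ b ^ (c + i))

lemma St3_window {N : ℕ} {p : ℂ → Fin N → ℂ} {R L : ℝ} (hp : DifferentiableOn ℂ p (ball 0 R))
    (n : ℕ) (hR : rad3 n L ≤ R) (v : ℕ → ℝ) :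
    ∃ σ : ℝ, (1024 ≤ σ ∧ n ≤ σ ∧ L ≤ σ ∧ σ ^ (ex3 n + 1) < R) ∧
      ∀ j < n, -sc p σ ^ 2 ≤ v j ∨ v j ≤ -sc p (σ ^ (ex3 n + 1)) ^ 2 := by
  have hb : 1 < ex3 n + 1 := by
    have : 0 < ex3 n := by unfold ex3; positivity
    omega
  obtain ⟨σ, h1, h2, h3', h4⟩ := St3_seq (ex3 n + 1) (n + ⌈L⌉₊ + 1024) hb
  have h3 : ∀ i, i ≤ n + 1 → σ i < R := fun i hi =>
    ((h2 hi).trans_eq (h3' n)).trans_lt ((lt_add_one _).trans_le hR)
  obtain ⟨i, hi, h5⟩ : ∃ i ∈ range (n + 1), ∀ j ∈ range n,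
      -sc p (σ i) ^ 2 ≤ v j ∨ v j ≤ -sc p (σ (i + 1)) ^ 2 := by
    by_contra hc
    push Not at hc
    choose! φ φ1 φ2 φ3 using hc
    obtain ⟨x, hx, y, hy, hne, e⟩ := exists_ne_map_eq_of_card_lt_of_maps_to (f := φ)
      (by simp : (range n).card < (range (n + 1)).card) φ1
    have key : ∀ x ∈ range (n + 1), ∀ y ∈ range (n + 1), x < y → φ x ≠ φ y := by
      intro x hx y hy h e
      have a1 := φ3 x hx
      have a2 := φ2 y hy
      have a3 := sc_mono hp (ρ := σ (x + 1)) ((Nat.cast_nonneg _).trans (h4 _)) (h2 h)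
        (h3 y (by have := mem_range.1 hy; omega))
      have a4 : 0 ≤ sc p (σ (x + 1)) := (norm_nonneg _).trans (le_sc hp (z := 0)
        (h3 _ (by have := mem_range.1 hx; omega)) (norm_zero.trans_le ((Nat.cast_nonneg _).trans (h4 _))))
      have a5 := pow_le_pow_left₀ a4 a3 2
      rw [e] at a1
      linarith
    rcases lt_or_gt_of_ne hne with h | h
    exacts [key x hx y hy h e, key y hy x hx h e.symm]
  have h6 := h4 i
  push_cast at h6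
  have h7 := Nat.le_ceil L
  have h8 : (0 : ℝ) ≤ n := Nat.cast_nonneg _
  have h9 : (0 : ℝ) ≤ ⌈L⌉₊ := Nat.cast_nonneg _
  refine ⟨σ i, ⟨by linarith, by linarith, by linarith, ?_⟩, fun j hj => ?_⟩
  · rw [h1]; exact h3 _ (by have := mem_range.1 hi; omega)
  · rw [h1]; exact h5 j (mem_range.2 hj)

lemma St3_prod {R : ℝ} (hR : 1 < R) (x : ℕ → ℂ → ℂ) (J : Finset ℕ)
    (h : ∀ j ∈ J, Hol R (x j) ∧ NZ R (x j)) :
    Hol R (fun z => ∏ j ∈ J, x j z) ∧ NZ R (fun z => ∏ j ∈ J, x j z) ∧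
      av (fun z => ∏ j ∈ J, x j z) 1 = ∑ j ∈ J, av (x j) 1 := by
  induction J using Finset.induction_on with
  | empty =>
    refine ⟨by simp, ⟨0, mem_ball_self (by linarith), by simp⟩, ?_⟩
    simp [av, circleAverage_const]
  | insert i s hi ih =>
    obtain ⟨a1, a2, a3⟩ := ih fun j hj => h j (mem_insert_of_mem hj)
    obtain ⟨b1, b2⟩ := h i (mem_insert_self _ _)
    simp only [prod_insert hi, sum_insert hi]
    exact ⟨b1.mul a1, b2.mul b1 a1 a2, by rw [av_mul b1 a1 b2 a2 one_pos hR, a3]⟩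

lemma St3_iter (h : SThree) {N : ℕ} {p : ℂ → Fin N → ℂ} {R ρ : ℝ}
    (hp : DifferentiableOn ℂ p (ball 0 R)) (h1 : sc p 1 = 1) (hρ : 1 ≤ ρ) (h0 : 0 ≤ sc p ρ) :
    ∀ j : ℕ, ρ ^ 2 ^ j < R → sc p ρ ^ 2 ^ j ≤ sc p (ρ ^ 2 ^ j) := by
  intro j
  induction j with
  | zero => intro _; simp
  | succ j ih =>
    intro hj
    have e : ρ ^ 2 ^ (j + 1) = (ρ ^ 2 ^ j) ^ 2 := by rw [← pow_mul, ← pow_succ]
    have a1 : 1 ≤ ρ ^ 2 ^ j := one_le_pow₀ hρ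
    have a2 : ρ ^ 2 ^ j ≤ (ρ ^ 2 ^ j) ^ 2 := le_self_pow₀ a1 (by norm_num)
    rw [e] at hj ⊢
    have a3 := (h N p R hp).1 _ a1 hj
    rw [h1, one_mul] at a3
    refine le_trans ?_ a3
    rw [pow_succ, pow_mul]
    exact pow_le_pow_left₀ (by positivity) (ih (a2.trans_lt hj)) 2

lemma St3_delta {τ δ η u A a : ℝ} (hτ : 2 ^ 26 ≤ τ) (hδ : 0 < δ) (h1 : 1 ≤ 2 ^ 11 * τ * η)
    (hu0 : 0 ≤ u) (hu : u ≤ 2 ^ 15 * τ) (hη : η ≤ 2 ^ 15 * τ) (hA : A - a ≤ 2 ^ 65 * τ ^ 5)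
    (h : η ^ 2 ≤ δ * (2 * (4 * u * (A - a) + η))) : (τ ^ 20)⁻¹ ≤ δ := by
  have τ0 : 0 < τ := by linarith
  have k1 : u * (A - a) ≤ (2 ^ 15 * τ) * (2 ^ 65 * τ ^ 5) :=
    (mul_le_mul_of_nonneg_left hA hu0).trans (mul_le_mul_of_nonneg_right hu (by positivity))
  have k2 : τ ≤ τ ^ 6 := le_self_pow₀ (by linarith) (by norm_num)
  have k3 : 2 * (4 * u * (A - a) + η) ≤ 2 ^ 84 * τ ^ 6 := by linarith
  have k4 := h.trans (mul_le_mul_of_nonneg_left k3 hδ.le)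
  have k5 : 1 ≤ (2 ^ 11 * τ) ^ 2 * η ^ 2 := by
    rw [← mul_pow]; exact one_le_pow₀ h1
  have k6 := k5.trans (mul_le_mul_of_nonneg_left k4 (by positivity))
  have k7 : (2 : ℝ) ^ 106 ≤ τ ^ 12 := by
    calc (2 : ℝ) ^ 106 ≤ (2 ^ 26) ^ 12 := by norm_num
      _ ≤ _ := pow_le_pow_left₀ (by positivity) hτ 12
  rw [inv_le_iff_one_le_mul₀ (by positivity)]
  calc 1 ≤ 2 ^ 106 * (δ * τ ^ 8) := by linarith
    _ ≤ τ ^ 12 * (δ * τ ^ 8) := by gcongr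
    _ = _ := by ring

lemma St3_num {S S0 a r0 η0 r τ : ℝ} (b3 : 1 ≤ S) (b4 : S ≤ S0) (a1 : 1 ≤ a) (c2 : 0 < η0)
    (c3 : r0 + η0 ≤ 2 * a) (c5 : a ^ 4 * S ≤ 16 * η0 ^ 4 * S0) (d1 : r0 + η0 / 8 ≤ r)
    (d2 : 0 ≤ r ∧ r ≤ r0 + η0) (t1 : 1 ≤ τ) (e1 : S0 ≤ (4 * r / (r - r0)) ^ 2 * τ) :
    S ≤ 2 ^ 14 * τ ∧ S0 ≤ 2 ^ 28 * τ ^ 2 ∧ 1 ≤ 2 ^ 8 * τ * η0 := by
  have p4 : 0 < a := by linarith
  have τ0 : 0 < τ := by linarith
  obtain ⟨d2, d3⟩ := d2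
  have e2 : η0 ^ 2 * S0 ≤ 2 ^ 12 * a ^ 2 * τ := by
    have : 4 * r / (r - r0) ≤ 64 * a / η0 := by
      rw [div_le_div_iff₀ (by linarith) c2]
      linarith [mul_le_mul_of_nonneg_right (by linarith : r ≤ 2 * a) c2.le,
        mul_le_mul_of_nonneg_left (by linarith : η0 / 8 ≤ r - r0) p4.le]
    have : 0 ≤ 4 * r / (r - r0) := div_nonneg (by linarith) (by linarith)
    calc _ ≤ η0 ^ 2 * ((64 * a / η0) ^ 2 * τ) := by
          gcongr; exact e1.trans (by gcongr)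
      _ = _ := by field_simp; ring
  have e3 : S * S0 ≤ 2 ^ 28 * τ ^ 2 := by
    apply le_of_mul_le_mul_left _ (show 0 < a ^ 4 by positivity)
    calc _ = (a ^ 4 * S) * S0 := by ring
      _ ≤ (16 * η0 ^ 4 * S0) * S0 := by gcongr; linarith
      _ = 16 * (η0 ^ 2 * S0) ^ 2 := by ring
      _ ≤ 16 * (2 ^ 12 * a ^ 2 * τ) ^ 2 := by
          have : 0 ≤ S0 := by linarith
          gcongr
      _ = _ := by ring
  have e4 : S ≤ 2 ^ 14 * τ := by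
    refine le_of_sq_le_sq ?_ (by linarith)
    linarith [mul_le_mul_of_nonneg_left b4 (zero_le_one.trans b3)]
  have e5 : S0 ≤ 2 ^ 28 * τ ^ 2 := by
    linarith [mul_le_mul_of_nonneg_right b3 (zero_le_one.trans (b3.trans b4))]
  have e6 : 1 ≤ 2 ^ 8 * τ * η0 := by
    refine le_of_pow_le_pow_left₀ (n := 4) (by norm_num) (by positivity) ?_
    have g1 : 1 ≤ a ^ 4 * S :=
      one_le_mul_of_one_le_of_one_le (one_le_pow₀ (by linarith)) b3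
    have g2 : τ ^ 2 ≤ τ ^ 4 := pow_le_pow_right₀ (by linarith) (by norm_num)
    calc _ ≤ 16 * η0 ^ 4 * S0 := by linarith
      _ ≤ 16 * η0 ^ 4 * (2 ^ 28 * τ ^ 4) := by gcongr; linarith
      _ = _ := by ring
  exact ⟨e4, e5, e6⟩

lemma St3_sig {σ : ℝ} (σ1 : 1024 ≤ σ) : 2 * σ ^ 4 ≤ σ ^ 5 ∧ σ < σ ^ 2 ∧ σ ^ 2 < σ ^ 4 ∧
    2 ^ 20 * σ ^ 2 ≤ σ ^ 4 ∧ (2 : ℝ) ^ 40 ≤ σ ^ 4 := by
  have p4 : 0 < σ ^ 4 := by positivity
  have a2 : σ < σ ^ 2 := by nlinarith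
  have q1 : (2 : ℝ) ^ 20 ≤ σ ^ 2 := by nlinarith
  exact ⟨by nlinarith, a2, by nlinarith, by nlinarith, by nlinarith⟩

lemma St3_cube {τ m C L : ℝ} (m3 : 1 ≤ m) (hC : 0 ≤ C) (hL : L ≤ m) (hn : 5 * C + 2 ≤ m)
    (h : τ ≤ C * ((2 * m) ^ 2 + 1) + L + 1) : τ ≤ m ^ 3 := by
  have k1 : m ≤ m ^ 2 := le_self_pow₀ m3 (by norm_num)
  have k2 : C * 1 ≤ C * m ^ 2 := mul_le_mul_of_nonneg_left (by linarith) hC
  have k3 : (5 * C + 2) * m ^ 2 ≤ m * m ^ 2 := mul_le_mul_of_nonneg_right hn (sq_nonneg m)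
  nlinarith

theorem sSt3 (h : SThree) : SSt3 := by
  classical
  intro N n L R C p x ph hp hR h1 hL hph hC hb
  obtain ⟨σ, hσ, dich⟩ := St3_window hp n hR fun j => av (x j) 1
  obtain ⟨σ1, σ2, σ3, σ4⟩ := id hσ
  have σ0 : 0 < σ := by linarith
  have σ5 : 1 ≤ σ := by linarith
  have hB : 5 ≤ ex3 n := by
    have : 0 < 2 ^ (n + 1) := by positivity
    unfold ex3; omega
  have aB : σ ^ ex3 n < R := (pow_le_pow_right₀ σ5 (by omega)).trans_lt σ4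
  have a5 : σ ^ 5 < R := (pow_le_pow_right₀ σ5 hB).trans_lt aB
  have p4 : 0 < σ ^ 4 := by positivity
  obtain ⟨a4, a2, a3, a6, a7⟩ := St3_sig σ1
  have L0 : 0 ≤ L := (norm_nonneg _).trans hL
  have lin : ∀ ρ, 1 < ρ → ρ < R → ρ ≤ sc p ρ := fun ρ e1 e2 => by
    have := sc_schwarz hp one_pos e1 e2
    rw [h1] at this
    linarith
  have b1 : σ ≤ sc p σ := lin σ (by linarith) (by linarith)
  have b0 : sc p σ ^ 2 ≤ sc p (σ ^ 2) := by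
    have := (h N p R hp).1 σ σ5 (by linarith)
    rwa [h1, one_mul] at this
  have b2 : σ ^ 2 * sc p (σ ^ 2) ≤ sc p (σ ^ 4) := by
    have := sc_schwarz hp (by positivity) a3 (by linarith)
    apply le_of_mul_le_mul_left _ (show 0 < σ ^ 2 by positivity)
    calc _ = σ ^ 4 * sc p (σ ^ 2) := by ring
      _ ≤ _ := this
  have b5 : σ ^ 4 ≤ sc p (σ ^ 4) := lin _ (by linarith) (by linarith)
  have b3 : 1 ≤ sc p (σ ^ 4) := by linarith
  obtain ⟨r0, η0, c1, c2, c3, c4, c5⟩ := borel (S := sc p) (a := σ ^ 4) p4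
    (by linarith) fun x h h' => sc_mono hp (by linarith) h' (by linarith : 2 * σ ^ 4 < R)
  let J : Finset ℕ := (range n).filter fun j => Hol R (x j) ∧ NZ R (x j) ∧
    -sc p σ ^ 2 ≤ av (x j) 1 ∧
    ∀ z, ‖z‖ ≤ r0 + η0 / 2 → ‖x j z‖ ≤ exp (n * sc p (r0 + η0) ^ 2)
  have Jc : (J.card : ℝ) ≤ n := by
    exact_mod_cast (card_filter_le _ _).trans (card_range n).le
  obtain ⟨f1, f2, f3⟩ := St3_prod (by linarith : 1 < R) x J fun j hj =>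
    ⟨(mem_filter.1 hj).2.1, (mem_filter.1 hj).2.2.1⟩
  have n0 : (0 : ℝ) ≤ n := Nat.cast_nonneg _
  have f4 : -(n * sc p σ ^ 2) ≤ av (fun z => ∏ j ∈ J, x j z) 1 := by
    rw [f3]
    have := card_nsmul_le_sum J (fun j => av (x j) 1) (-sc p σ ^ 2)
      fun j hj => (mem_filter.1 hj).2.2.2.1
    rw [nsmul_eq_mul] at this
    linarith only [this, mul_le_mul_of_nonneg_right Jc (sq_nonneg (sc p σ))]
  have f5 : av (fun z => ∏ j ∈ J, x j z) (r0 + η0 / 8 + 3 * (η0 / 8)) ≤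
      n * (n * sc p (r0 + η0) ^ 2) := by
    refine av_le f1 f2 (by linarith) (by linarith) fun z hz => ?_
    rw [norm_prod]
    calc _ ≤ ∏ _j ∈ J, exp (n * sc p (r0 + η0) ^ 2) :=
          prod_le_prod (fun _ _ => norm_nonneg _) fun j hj =>
            (mem_filter.1 hj).2.2.2.2 z (by linarith)
      _ = exp (J.card * (n * sc p (r0 + η0) ^ 2)) := by rw [prod_const, ← exp_nat_mul]
      _ ≤ _ := by gcongr
  obtain ⟨r, δ, d1, d2, d3, d4, d6, d7⟩ := lld_radius f1 f2 (u := r0 + η0 / 8) (η := η0 / 8)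
    (by linarith) (by linarith) (by linarith) (by linarith) f5
  have rp : 0 < r := by linarith
  have rR : r < R := by linarith
  have i1 : CircleIntegrable (fun z => ph (p z)) 0 r :=
    (hph.comp_continuousOn (hp.continuousOn.mono (sph_sub rp rR))).circleIntegrable'
  have t0 : 0 ≤ circleAverage (tp p) 0 r := circleAverage_nonneg_of_nonneg fun z _ => tp_nonneg z
  have t2 : circleAverage (tp p) 0 r ≤ circleAverage (fun z => ph (p z)) 0 r :=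
    avg_mono_off Set.finite_empty rp (tp_int hp rp rR) i1 fun z _ _ => (hb (p z)).1
  have m1 : σ ^ 5 ≤ sc p (σ ^ 5) := lin _ (by linarith) a5
  have m2 : σ ≤ sc p (σ ^ 5) := by linarith
  have t3 : circleAverage (fun z => ph (p z)) 0 r ≤ C * ((2 * sc p (σ ^ 5)) ^ 2 + 1) := by
    rw [← circleAverage_const (C * ((2 * sc p (σ ^ 5)) ^ 2 + 1)) 0 r]
    refine avg_mono_off Set.finite_empty rp i1 (circleIntegrable_const _ _ _) fun z hz _ => ?_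
    have := le_sc hp a5 (z := z) (by linarith)
    have := norm_le_norm_sub_add (p z) (p 0)
    have : ‖p z‖ ≤ 2 * sc p (σ ^ 5) := by linarith
    refine (hb (p z)).2.trans ?_
    gcongr
  have e0 := sc_le_tp hp (u := r0) (r := r) (by linarith) (by linarith) rR hL
  obtain ⟨τ, hτ⟩ : ∃ τ, τ = circleAverage (fun z => ph (p z)) 0 r + L + 1 := ⟨_, rfl⟩
  have t1 : L + 1 ≤ τ := by linarith
  have e1 : sc p r0 ≤ (4 * r / (r - r0)) ^ 2 * τ :=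
    e0.trans (mul_le_mul_of_nonneg_left (by linarith) (sq_nonneg _))
  have b4 : sc p (σ ^ 4) ≤ sc p r0 := sc_mono hp p4.le c1 (by linarith)
  obtain ⟨e4, e5, e6⟩ := St3_num b3 b4 (one_le_pow₀ σ5) c2 c3 c5 d1 ⟨rp.le, by linarith⟩ (by linarith) e1
  have τ0 : 0 < τ := by linarith
  have s1 : σ ^ 2 * sc p σ ^ 2 ≤ 2 ^ 14 * τ :=
    (mul_le_mul_of_nonneg_left b0 (sq_nonneg σ)).trans (b2.trans e4)
  have s2 : sc p (r0 + η0) ≤ 2 ^ 32 * τ ^ 2 := by linarith only [c4, e5]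
  have q2 : σ ^ 2 ≤ τ := by linarith only [a6, b5, e4, τ0]
  have q3 : (2 : ℝ) ^ 26 ≤ τ := by linarith only [a7, b5, e4]
  refine ⟨σ, r0, η0, r, ?_⟩
  rw [← hτ]
  refine ⟨hσ, dich, ⟨c1, c2, c3, d1, by linarith⟩, b1, s1, s2, e6, fun K hK hn => ?_,
    fun j hj x1 x2 x3 x4 z hz => ?_⟩
  · set m := sc p (σ ^ 5) with hm
    have m3 : 1 ≤ m := by linarith
    have m4 : τ ≤ m ^ 3 := St3_cube m3 hC (σ3.trans m2) (hn.trans (σ2.trans m2))
      (by linarith only [hτ, t3])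
    have e : (σ ^ 5) ^ 2 ^ (n + 1) = σ ^ ex3 n := by rw [← pow_mul]; rfl
    have m5 := St3_iter h hp h1 (ρ := σ ^ 5) (one_le_pow₀ σ5) (by linarith) (n + 1) (e ▸ aB)
    rw [e] at m5
    have m6 : 3 * K ≤ 2 ^ (n + 1) * 2 := by
      have := Nat.lt_two_pow_self (n := n)
      rw [pow_succ]; omega
    calc τ ^ K ≤ (m ^ 3) ^ K := pow_le_pow_left₀ τ0.le m4 K
      _ = m ^ (3 * K) := by rw [pow_mul]
      _ ≤ m ^ (2 ^ (n + 1) * 2) := pow_le_pow_right₀ m3 m6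
      _ = (m ^ 2 ^ (n + 1)) ^ 2 := by rw [pow_mul]
      _ ≤ _ := pow_le_pow_left₀ (by positivity) m5 2
  · have g0 : 0 ≤ sc p (r0 + η0) :=
      (norm_nonneg _).trans (le_sc hp (z := 0) (by linarith) (by rw [norm_zero]; linarith))
    have g1 : (n : ℝ) * (n * sc p (r0 + η0) ^ 2) ≤ 2 ^ 64 * τ ^ 5 := by
      have k1 : (n : ℝ) ^ 2 ≤ τ := (pow_le_pow_left₀ n0 σ2 2).trans q2
      have k2 : sc p (r0 + η0) ^ 2 ≤ (2 ^ 32 * τ ^ 2) ^ 2 := pow_le_pow_left₀ g0 s2 2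
      calc _ = (n : ℝ) ^ 2 * sc p (r0 + η0) ^ 2 := by ring
        _ ≤ τ * (2 ^ 32 * τ ^ 2) ^ 2 := by gcongr
        _ = _ := by ring
    have g2 : (n : ℝ) * sc p σ ^ 2 ≤ σ ^ 2 * sc p σ ^ 2 :=
      mul_le_mul_of_nonneg_right (by linarith) (sq_nonneg _)
    have g3 : τ ≤ τ ^ 5 := le_self_pow₀ (by linarith) (by norm_num)
    have g4 := St3_delta q3 d3 (by linarith only [e6]) (by linarith only [c1, c2, p4])
      (by linarith only [c2, c3, b5, e4]) (by linarith only [c1, c2, c3, b5, e4, p4])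
      (by linarith only [g1, g2, g3, s1, f4, τ0]) d6
    exact prod_ne_zero_iff.1 (d7 z (hz.trans_le g4)) j
      (mem_filter.2 ⟨mem_range.2 hj, x1, x2, x3, x4⟩)

end Pool.Agent.MP_c69980_ag.H43
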