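import Pool.Agent.MP_c69980_ag.H43.Spec8

/-!
Logarithmic vector fields along a prime divisor through a smooth point.
-/

set_option autoImplicit false

namespace Pool.Agent.MP_c69980_ag.H43

section

variable {K : Type} [Field K] [Algebra ℂ K] {V : ValuationSubring K} {D : Derivation ℂ K K} {c : K}

lemma wv_mul {x y : K} (hx : c * D x / x ∈ V) (hy : c * D y / y ∈ V) :
    c * D (x * y) / (x * y) ∈ V := by
  by_cases h : x = 0
  · simp [h]
  by_cases h' : y = 0
  · simp [h']
  have e : c * D (x * y) / (x * y) = c * D x / x + c * D y / y := by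
    rw [Derivation.leibniz, smul_eq_mul, smul_eq_mul]
    field_simp
    ring
  exact e ▸ add_mem hx hy

lemma wv_inv {x : K} (hx : c * D x⁻¹ / x⁻¹ ∈ V) : c * D x / x ∈ V := by
  by_cases h : x = 0
  · simp [h]
  have e : c * D x / x = -(c * D x⁻¹ / x⁻¹) := by
    rw [Derivation.leibniz_inv, smul_eq_mul]
    field_simp
  exact e ▸ neg_mem hx

lemma wv_pow {x : K} (hx : c * D x / x ∈ V) (n : ℕ) : c * D (x ^ n) / x ^ n ∈ V := by
  induction n with
  | zero => simp
  | succ n ih => exact pow_succ x n ▸ wv_mul ih hx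

lemma wv_unit (hc : c ∈ V) (hD : ∀ x ∈ V, D x ∈ V) (u : Vˣ) : c * D (u : V) / (u : V) ∈ V := by
  have e : (((u : V) : K))⁻¹ = ((u⁻¹ : Vˣ) : V) :=
    inv_eq_of_mul_eq_one_right (by exact_mod_cast u.mul_inv)
  rw [div_eq_mul_inv, e]
  exact mul_mem (mul_mem hc (hD _ (u : V).2)) ((u⁻¹ : Vˣ) : V).2

lemma wv_unif [IsDiscreteValuationRing V] (hD : ∀ x ∈ V, D x ∈ V) (t : V) (h1 : D t = 1)
    (h2 : V.valuation t ≠ 1) : Irreducible t := by
  obtain ⟨ϖ, hϖ⟩ := IsDiscreteValuationRing.exists_irreducible V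
  have t0 : t ≠ 0 := fun h => by simp [h] at h1
  obtain ⟨n, u, hu⟩ := IsDiscreteValuationRing.eq_unit_mul_pow_irreducible t0 hϖ
  rcases n with _ | _ | n
  · exact absurd ((V.valuation_eq_one_iff t).1 (by simp [hu])) h2
  · rw [hu, zero_add, pow_one]
    exact (irreducible_units_mul u).2 hϖ
  · refine absurd (IsUnit.of_mul_eq_one (⟨D (u * ϖ ^ (n + 1) : V), hD _ (Subtype.prop _)⟩ +
      u * ϖ ^ n * ⟨D ϖ, hD _ ϖ.2⟩) (Subtype.ext ?_)) hϖ.not_isUnit
    have e : (t : K) = ϖ * (u * ϖ ^ (n + 1) : V) := by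
      rw [hu]
      push_cast
      ring
    rw [e, Derivation.leibniz, smul_eq_mul, smul_eq_mul] at h1
    push_cast at h1 ⊢
    linear_combination h1

end

theorem sWv : SWv := by
  intro K _ _ O k s d r V h _ hO hV
  have p : ∀ l, ∀ x ∈ V, d l x ∈ V := fun l x hx => by
    obtain ⟨a, ha, b, hb, h1, h2⟩ := hV x hx
    have b0 : b ≠ 0 := fun e => by simp [e] at h1
    have e : d l x = (d l a - x * d l b) * b⁻¹ := by
      rw [← h2, Derivation.leibniz, smul_eq_mul, smul_eq_mul]
      field_simp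
      ring
    rw [e]
    refine mul_mem (sub_mem (hO _ (h.pres l a ha)) (mul_mem hx (hO _ (h.pres l b hb)))) ?_
    rw [← V.valuation_le_one_iff, map_inv₀, h1, inv_one]
  refine ⟨p, or_iff_not_imp_left.2 fun hr l => ?_⟩
  obtain ⟨j, hj, hv⟩ : ∃ j ∈ r, V.valuation (s j : K) ≠ 1 := by simpa using hr
  have ir := wv_unif (p j) ⟨s j, hO _ (s j).2⟩ (by simpa using h.dual j j) hv
  have hc : (if l ∈ r then (s l : K) else 1) ∈ V := by
    split_ifs
    exacts [hO _ (s l).2, one_mem V]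
  have ht : (if l ∈ r then (s l : K) else 1) * d l (s j) / s j ∈ V := by
    rw [h.dual]
    by_cases e : l = j
    · subst e
      rw [if_pos hj, if_pos rfl, mul_one]
      by_cases e' : (s l : K) = 0 <;> simp [e']
    · simp [e]
  have key : ∀ x ∈ V, (if l ∈ r then (s l : K) else 1) * d l x / x ∈ V := fun x hx => by
    by_cases x0 : x = 0
    · simp [x0]
    obtain ⟨n, u, hu⟩ := IsDiscreteValuationRing.eq_unit_mul_pow_irreducible
      (x := (⟨x, hx⟩ : V)) (fun e => x0 (congrArg Subtype.val e)) ir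
    have e : x = (u : V) * (s j : K) ^ n := by simpa using congrArg Subtype.val hu
    exact e ▸ wv_mul (wv_unit hc (p l) u) (wv_pow ht n)
  exact fun x => (V.mem_or_inv_mem x).elim (key x) fun hx => wv_inv (key _ hx)

end Pool.Agent.MP_c69980_ag.H43
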